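import Pool.Agent.Helper62.CS.Stmts2
import Pool.Agent.Helper62.CS.UA

/-!
Row BLD of project CS: the bold play on the machine.
-/

namespace Pool.Agent.Helper81.CS

open Classical
open Pool.Agent.Helper62.CS Pool.Agent.Helper62.CS.UA

/-- the stacks 4, 6, 7, 8, 9 -/
def stB (s : ℕ → Str) (a b c d e : Str) : ℕ → Str := fun i =>
  if i = 4 then a else if i = 6 then b else if i = 7 then c else if i = 8 then d
  else if i = 9 then e else s i

theorem stB_eq (s : ℕ → Str) : stB s (s 4) (s 6) (s 7) (s 8) (s 9) = s := by
  funext i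
  unfold stB
  split_ifs <;> simp_all

theorem updB4 (s : ℕ → Str) (a b c d e x : Str) :
    Function.update (stB s a b c d e) 4 x = stB s x b c d e := by
  funext i
  unfold stB
  by_cases h : i = 4
  · subst h; simp
  · rw [Function.update_of_ne h]; simp [h]

theorem getB4 (s : ℕ → Str) (a b c d e : Str) : stB s a b c d e 4 = a := by
  simp [stB]

theorem updB6 (s : ℕ → Str) (a b c d e x : Str) :
    Function.update (stB s a b c d e) 6 x = stB s a x c d e := by
  funext i
  unfold stB
  by_cases h : i = 6
  · subst h; simp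
  · rw [Function.update_of_ne h]; simp [h]

theorem getB6 (s : ℕ → Str) (a b c d e : Str) : stB s a b c d e 6 = b := by
  simp [stB]

theorem updB7 (s : ℕ → Str) (a b c d e x : Str) :
    Function.update (stB s a b c d e) 7 x = stB s a b x d e := by
  funext i
  unfold stB
  by_cases h : i = 7
  · subst h; simp
  · rw [Function.update_of_ne h]; simp [h]

theorem getB7 (s : ℕ → Str) (a b c d e : Str) : stB s a b c d e 7 = c := by
  simp [stB]

theorem updB8 (s : ℕ → Str) (a b c d e x : Str) :
    Function.update (stB s a b c d e) 8 x = stB s a b c x e := by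
  funext i
  unfold stB
  by_cases h : i = 8
  · subst h; simp
  · rw [Function.update_of_ne h]; simp [h]

theorem getB8 (s : ℕ → Str) (a b c d e : Str) : stB s a b c d e 8 = d := by
  simp [stB]

theorem updB9 (s : ℕ → Str) (a b c d e x : Str) :
    Function.update (stB s a b c d e) 9 x = stB s a b c d x := by
  funext i
  unfold stB
  by_cases h : i = 9
  · subst h; simp
  · rw [Function.update_of_ne h]; simp [h]

theorem getB9 (s : ℕ → Str) (a b c d e : Str) : stB s a b c d e 9 = e := by
  simp [stB]

section

variable (O : Lang) (s : ℕ → Str) (a b c d e : Str)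

theorem m24 : step progR O ⟨24, stB s a b c d e⟩ =
    ⟨25, stB s a b c (true :: d) e⟩ := by
  simp [step, stepA, progR, updB8, getB8]

theorem m25 : step progR O ⟨25, stB s a b c d e⟩ =
    ⟨23, stB s a b c (true :: d) e⟩ := by
  simp [step, stepA, progR, updB8, getB8]

theorem m28 : step progR O ⟨28, stB s a b c d e⟩ =
    ⟨26, stB s a b c d (true :: e)⟩ := by
  simp [step, stepA, progR, updB9, getB9]

theorem m29 : step progR O ⟨29, stB s a b c d e⟩ =
    ⟨30, stB s a (true :: b) c d e⟩ := by
  simp [step, stepA, progR, updB6, getB6]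

theorem m32 : step progR O ⟨32, stB s a b c d e⟩ =
    ⟨38, stB s a (true :: b) c d e⟩ := by
  simp [step, stepA, progR, updB6, getB6]

theorem m38 : step progR O ⟨38, stB s a b c d e⟩ =
    ⟨31, stB s a b (true :: c) d e⟩ := by
  simp [step, stepA, progR, updB7, getB7]

theorem m35 : step progR O ⟨35, stB s a b c d e⟩ =
    ⟨34, stB s a (true :: b) c d e⟩ := by
  simp [step, stepA, progR, updB6, getB6]

theorem m37 : step progR O ⟨37, stB s a b c d e⟩ =
    ⟨36, stB s a b (true :: c) d e⟩ := by
  simp [step, stepA, progR, updB7, getB7]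

theorem m23n : step progR O ⟨23, stB s a b [] d e⟩ = ⟨26, stB s a b [] d e⟩ := by
  simp [step, stepA, progR, getB7]

theorem m23f : step progR O ⟨23, stB s a b (false :: c) d e⟩ = ⟨44, stB s a b c d e⟩ := by
  simp [step, stepA, progR, getB7, updB7]

theorem m23t : step progR O ⟨23, stB s a b (true :: c) d e⟩ = ⟨24, stB s a b c d e⟩ := by
  simp [step, stepA, progR, getB7, updB7]

theorem m26n : step progR O ⟨26, stB s a [] c d e⟩ = ⟨33, stB s a [] c d e⟩ := by
  simp [step, stepA, progR, getB6]

theorem m26f : step progR O ⟨26, stB s a (false :: b) c d e⟩ = ⟨44, stB s a b c d e⟩ := by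
  simp [step, stepA, progR, getB6, updB6]

theorem m26t : step progR O ⟨26, stB s a (true :: b) c d e⟩ = ⟨27, stB s a b c d e⟩ := by
  simp [step, stepA, progR, getB6, updB6]

theorem m27n : step progR O ⟨27, stB s a b c [] e⟩ = ⟨29, stB s a b c [] e⟩ := by
  simp [step, stepA, progR, getB8]

theorem m27f : step progR O ⟨27, stB s a b c (false :: d) e⟩ = ⟨44, stB s a b c d e⟩ := by
  simp [step, stepA, progR, getB8, updB8]

theorem m27t : step progR O ⟨27, stB s a b c (true :: d) e⟩ = ⟨28, stB s a b c d e⟩ := by
  simp [step, stepA, progR, getB8, updB8]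

theorem m30n : step progR O ⟨30, stB s [] b c d e⟩ = ⟨44, stB s [] b c d e⟩ := by
  simp [step, stepA, progR, getB4]

theorem m30f : step progR O ⟨30, stB s (false :: a) b c d e⟩ = ⟨31, stB s a b c d e⟩ := by
  simp [step, stepA, progR, getB4, updB4]

theorem m30t : step progR O ⟨30, stB s (true :: a) b c d e⟩ = ⟨44, stB s a b c d e⟩ := by
  simp [step, stepA, progR, getB4, updB4]

theorem m31n : step progR O ⟨31, stB s a b c d []⟩ = ⟨23, stB s a b c d []⟩ := by
  simp [step, stepA, progR, getB9]

theorem m31f : step progR O ⟨31, stB s a b c d (false :: e)⟩ = ⟨44, stB s a b c d e⟩ := by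
  simp [step, stepA, progR, getB9, updB9]

theorem m31t : step progR O ⟨31, stB s a b c d (true :: e)⟩ = ⟨32, stB s a b c d e⟩ := by
  simp [step, stepA, progR, getB9, updB9]

theorem m33n : step progR O ⟨33, stB s [] b c d e⟩ = ⟨44, stB s [] b c d e⟩ := by
  simp [step, stepA, progR, getB4]

theorem m33f : step progR O ⟨33, stB s (false :: a) b c d e⟩ = ⟨39, stB s a b c d e⟩ := by
  simp [step, stepA, progR, getB4, updB4]

theorem m33t : step progR O ⟨33, stB s (true :: a) b c d e⟩ = ⟨34, stB s a b c d e⟩ := by
  simp [step, stepA, progR, getB4, updB4]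

theorem m34n : step progR O ⟨34, stB s a b c d []⟩ = ⟨36, stB s a b c d []⟩ := by
  simp [step, stepA, progR, getB9]

theorem m34f : step progR O ⟨34, stB s a b c d (false :: e)⟩ = ⟨44, stB s a b c d e⟩ := by
  simp [step, stepA, progR, getB9, updB9]

theorem m34t : step progR O ⟨34, stB s a b c d (true :: e)⟩ = ⟨35, stB s a b c d e⟩ := by
  simp [step, stepA, progR, getB9, updB9]

theorem m36n : step progR O ⟨36, stB s a b c [] e⟩ = ⟨23, stB s a b c [] e⟩ := by
  simp [step, stepA, progR, getB8]

theorem m36f : step progR O ⟨36, stB s a b c (false :: d) e⟩ = ⟨44, stB s a b c d e⟩ := by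
  simp [step, stepA, progR, getB8, updB8]

theorem m36t : step progR O ⟨36, stB s a b c (true :: d) e⟩ = ⟨37, stB s a b c d e⟩ := by
  simp [step, stepA, progR, getB8, updB8]

end

/-- `n` ones -/
abbrev rep (n : ℕ) : Str := List.replicate n true

variable {O : Lang} {s : ℕ → Str}

theorem loopA (a b e : Str) : ∀ n q : ℕ,
    RunsTo progR O (3 * n + 1) ⟨23, stB s a b (rep n) (rep q) e⟩
      ⟨26, stB s a b [] (rep (2 * n + q)) e⟩ := by
  intro n
  induction n with
  | zero =>
    intro q
    have h := RunsTo.one (m23n O s a b (rep q) e)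
    have e1 : 2 * 0 + q = q := by omega
    rw [e1]
    exact h
  | succ n ih =>
    intro q
    have h := RunsTo.head (m23t O s a b (rep n) (rep q) e)
      (RunsTo.head (m24 O s a b (rep n) (rep q) e)
        (RunsTo.head (m25 O s a b (rep n) (true :: rep q) e) (ih (q + 2))))
    have e1 : 2 * (n + 1) + q = 2 * n + (q + 2) := by ring
    rw [e1]
    exact h.mono (by omega)

theorem loopM (a c : Str) (p q : ℕ) : ∀ m r : ℕ,
    RunsTo progR O (3 * m) ⟨26, stB s a (rep (m + p)) c (rep (m + q)) (rep r)⟩
      ⟨26, stB s a (rep p) c (rep q) (rep (m + r))⟩ := by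
  intro m
  induction m with
  | zero =>
    intro r
    have e1 : 0 + p = p := by omega
    have e2 : 0 + q = q := by omega
    have e3 : 0 + r = r := by omega
    rw [e1, e2, e3]
    exact RunsTo.refl _ _ _ _
  | succ m ih =>
    intro r
    have h := RunsTo.head (m26t O s a (rep (m + p)) c (rep ((m + q) + 1)) (rep r))
      (RunsTo.head (m27t O s a (rep (m + p)) c (rep (m + q)) (rep r))
        (RunsTo.head (m28 O s a (rep (m + p)) c (rep (m + q)) (rep r)) (ih (r + 1))))
    have e1 : m + 1 + p = (m + p) + 1 := by ring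
    have e2 : m + 1 + q = (m + q) + 1 := by ring
    have e3 : m + 1 + r = m + (r + 1) := by ring
    rw [e1, e2, e3]
    exact h.mono (by omega)

theorem loopR (a d : Str) : ∀ n p q : ℕ,
    RunsTo progR O (3 * n + 1) ⟨31, stB s a (rep p) (rep q) d (rep n)⟩
      ⟨23, stB s a (rep (p + n)) (rep (q + n)) d []⟩ := by
  intro n
  induction n with
  | zero =>
    intro p q
    exact RunsTo.one (m31n O s a (rep p) (rep q) d)
  | succ n ih =>
    intro p q
    have h := RunsTo.head (m31t O s a (rep p) (rep q) d (rep n))
      (RunsTo.head (m32 O s a (rep p) (rep q) d (rep n))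
        (RunsTo.head (m38 O s a (true :: rep p) (rep q) d (rep n)) (ih (p + 1) (q + 1))))
    have e1 : p + (n + 1) = (p + 1) + n := by ring
    have e2 : q + (n + 1) = (q + 1) + n := by ring
    rw [e1, e2]
    exact h.mono (by omega)

theorem loopP (a c d : Str) : ∀ n p : ℕ,
    RunsTo progR O (2 * n + 1) ⟨34, stB s a (rep p) c d (rep n)⟩
      ⟨36, stB s a (rep (p + n)) c d []⟩ := by
  intro n
  induction n with
  | zero =>
    intro p
    exact RunsTo.one (m34n O s a (rep p) c d)
  | succ n ih =>
    intro p
    have h := RunsTo.head (m34t O s a (rep p) c d (rep n))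
      (RunsTo.head (m35 O s a (rep p) c d (rep n)) (ih (p + 1)))
    have e1 : p + (n + 1) = (p + 1) + n := by ring
    rw [e1]
    exact h.mono (by omega)

theorem loopQ (a b e : Str) : ∀ n q : ℕ,
    RunsTo progR O (2 * n + 1) ⟨36, stB s a b (rep q) (rep n) e⟩
      ⟨23, stB s a b (rep (q + n)) [] e⟩ := by
  intro n
  induction n with
  | zero =>
    intro q
    exact RunsTo.one (m36n O s a b (rep q) e)
  | succ n ih =>
    intro q
    have h := RunsTo.head (m36t O s a b (rep q) (rep n) e)
      (RunsTo.head (m37 O s a b (rep q) (rep n) e) (ih (q + 1)))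
    have e1 : q + (n + 1) = (q + 1) + n := by ring
    rw [e1]
    exact h.mono (by omega)

theorem bold_run (k : ℕ) : ∀ (x : Str) (d : ℕ), d ≤ k → ∃ x4 x6 x7 x8 x9 : Str,
    RunsTo progR O ((20 * k + 20) * (x.length + 1)) ⟨23, stB s x (rep k) (rep d) [] []⟩
      ⟨if bold k d x = true then 39 else 44, stB s x4 x6 x7 x8 x9⟩ := by
  intro x
  induction x with
  | nil =>
    intro d hd
    have hb : ¬ (bold k d [] = true) := by simp [bold]
    rw [if_neg hb]
    have hA := loopA (O := O) (s := s) [] (rep k) [] d 0
    by_cases h : 2 * d < k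
    · obtain ⟨p, rfl⟩ : ∃ p, k = 2 * d + (p + 1) := ⟨k - 2 * d - 1, by omega⟩
      have hM := loopM (O := O) (s := s) [] [] (p + 1) 0 (2 * d) 0
      have h1 := m26t O s [] (rep p) [] (rep 0) (rep (2 * d + 0))
      have h2 := m27n O s [] (rep p) [] (rep (2 * d + 0))
      have h3 := m29 O s [] (rep p) [] [] (rep (2 * d + 0))
      have h4 := m30n O s (true :: rep p) [] [] (rep (2 * d + 0))
      exact ⟨_, _, _, _, _, ((hA.trans hM).trans
        (RunsTo.head h1 (RunsTo.head h2 (RunsTo.head h3 (RunsTo.one h4))))).mono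
          (by simp only [List.length_nil]; omega)⟩
    · obtain ⟨q, hq⟩ : ∃ q, 2 * d = k + q := ⟨2 * d - k, by omega⟩
      have hM := loopM (O := O) (s := s) [] [] 0 q k 0
      rw [hq] at hA
      have h1 := m26n O s [] [] (rep q) (rep (k + 0))
      have h2 := m33n O s [] [] (rep q) (rep (k + 0))
      exact ⟨_, _, _, _, _, ((hA.trans hM).trans
        (RunsTo.head h1 (RunsTo.one h2))).mono
          (by simp only [List.length_nil]; omega)⟩
  | cons y x ih =>
    intro d hd
    have hA := loopA (O := O) (s := s) (y :: x) (rep k) [] d 0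
    have hlen : (20 * k + 20) * ((y :: x).length + 1) = (20 * k + 20) * (x.length + 1) + (20 * k + 20) := by
      simp only [List.length_cons]; ring
    by_cases h : 2 * d < k
    · have hbold : bold k d (y :: x) = if y then false else bold k (2 * d) x := by
        simp [bold, h]
      have hih := ih (2 * d) h.le
      obtain ⟨p, hp⟩ : ∃ p, k = 2 * d + (p + 1) := ⟨k - 2 * d - 1, by omega⟩
      have hM := loopM (O := O) (s := s) (y :: x) [] (p + 1) 0 (2 * d) 0
      rw [← hp] at hM
      have h1 := m26t O s (y :: x) (rep p) [] (rep 0) (rep (2 * d + 0))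
      have h2 := m27n O s (y :: x) (rep p) [] (rep (2 * d + 0))
      have h3 := m29 O s (y :: x) (rep p) [] [] (rep (2 * d + 0))
      have hpre := (hA.trans hM).trans (RunsTo.head h1 (RunsTo.head h2 (RunsTo.one h3)))
      cases y
      · obtain ⟨x4, x6, x7, x8, x9, hr⟩ := hih
        have h4 := m30f O s x (true :: rep p) [] [] (rep (2 * d + 0))
        have hR := loopR (O := O) (s := s) x [] (2 * d) (p + 1) 0
        have e1 : p + 1 + 2 * d = k := by omega
        have e2 : 0 + 2 * d = 2 * d := by omega
        rw [e1, e2] at hR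
        refine ⟨x4, x6, x7, x8, x9, ?_⟩
        rw [hbold, hlen]
        exact ((hpre.trans (RunsTo.head h4 hR)).trans hr).mono (by omega)
      · have h4 := m30t O s x (true :: rep p) [] [] (rep (2 * d + 0))
        refine ⟨x, true :: rep p, [], [], rep (2 * d + 0), ?_⟩
        rw [hbold, hlen, if_neg (by simp)]
        exact (hpre.trans (RunsTo.one h4)).mono (by omega)
    · have hbold : bold k d (y :: x) = if y then bold k (2 * d - k) x else true := by
        simp [bold, h]
      have hih := ih (2 * d - k) (by omega)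
      obtain ⟨q, hq⟩ : ∃ q, 2 * d = k + q := ⟨2 * d - k, by omega⟩
      have hM := loopM (O := O) (s := s) (y :: x) [] 0 q k 0
      rw [hq] at hA
      have h1 := m26n O s (y :: x) [] (rep q) (rep (k + 0))
      have hpre := (hA.trans hM).trans (RunsTo.one h1)
      have hqk : 2 * d - k = q := by omega
      rw [hqk] at hih hbold
      cases y
      · have h2 := m33f O s x [] [] (rep q) (rep (k + 0))
        refine ⟨x, [], [], rep q, rep (k + 0), ?_⟩
        rw [hbold, hlen, if_pos (by simp)]
        exact (hpre.trans (RunsTo.one h2)).mono (by omega)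
      · obtain ⟨x4, x6, x7, x8, x9, hr⟩ := hih
        have h2 := m33t O s x [] [] (rep q) (rep (k + 0))
        have hP := loopP (O := O) (s := s) x [] (rep q) k 0
        have hQ := loopQ (O := O) (s := s) x (rep k) [] q 0
        have e1 : 0 + k = k := by omega
        have e2 : 0 + q = q := by omega
        rw [e1] at hP
        rw [e2] at hQ
        refine ⟨x4, x6, x7, x8, x9, ?_⟩
        rw [hbold, hlen]
        exact (((hpre.trans (RunsTo.head h2 hP)).trans hQ).trans hr).mono (by omega)

theorem st_BLD : ST_BLD := by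
  intro O k d x s hdk h4 h6 h7 h8 h9
  obtain ⟨x4, x6, x7, x8, x9, t, ht, h⟩ := bold_run (O := O) (s := s) k x d hdk
  have hs : stB s x (rep k) (rep d) [] [] = s := by
    have := stB_eq s
    rw [h4, h6, h7, h8, h9] at this
    exact this
  rw [hs] at h
  exact ⟨t, _, ht, h, by simp [stB], by simp [stB]⟩

end Pool.Agent.Helper81.CS
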