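import Pool.Agent.Helper62.CS.Stmts2

namespace Pool.Agent.Helper81.CS

open Pool.Agent.Helper62.CS

theorem mem_Qf81 (n : ℕ) (x : Str) : x ∈ Qf n ↔ x.length = n := by
  unfold Qf
  constructor
  · intro h
    obtain ⟨f, _, rfl⟩ := Finset.mem_image.1 h
    simp
  · intro h
    subst h
    exact Finset.mem_image.2 ⟨fun i => x.get i, Finset.mem_univ _, List.ofFn_get x⟩

theorem card_Qf81 (n : ℕ) : (Qf n).card = 2 ^ n := by
  unfold Qf
  rw [Finset.card_image_of_injective _ List.ofFn_injective]
  simp

theorem Qf_succ81 (n : ℕ) :
    Qf (n+1) = (Qf n).image (List.cons false) ∪ (Qf n).image (List.cons true) := by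
  ext x
  rw [mem_Qf81, Finset.mem_union, Finset.mem_image, Finset.mem_image]
  constructor
  · intro h
    cases x with
    | nil => simp at h
    | cons b x =>
      have hx : x ∈ Qf n := (mem_Qf81 n x).2 (by simpa using h)
      cases b
      · exact Or.inl ⟨x, hx, rfl⟩
      · exact Or.inr ⟨x, hx, rfl⟩
  · rintro (⟨y, hy, rfl⟩ | ⟨y, hy, rfl⟩)
    · simpa using (mem_Qf81 n y).1 hy
    · simpa using (mem_Qf81 n y).1 hy

theorem count_succ81 (n : ℕ) (P : Str → Prop) [DecidablePred P] :
    ((Qf (n+1)).filter P).card = ((Qf n).filter (fun x => P (false :: x))).card +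
      ((Qf n).filter (fun x => P (true :: x))).card := by
  rw [Qf_succ81, Finset.filter_union, Finset.card_union_of_disjoint]
  · rw [Finset.filter_image, Finset.filter_image,
      Finset.card_image_of_injective _ (List.cons_injective),
      Finset.card_image_of_injective _ (List.cons_injective)]
  · rw [Finset.disjoint_left]
    intro x hx hx'
    obtain ⟨y, _, rfl⟩ := Finset.mem_image.1 (Finset.mem_filter.1 hx).1
    obtain ⟨z, _, hz⟩ := Finset.mem_image.1 (Finset.mem_filter.1 hx').1
    simp at hz

theorem st_CNT : ST_CNT := by
  intro k m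
  induction m with
  | zero =>
    intro d hd
    have h0 : ((Qf 0).filter (fun x => bold k d x = true)).card = 0 := by
      rw [Finset.card_eq_zero, Finset.filter_eq_empty_iff]
      intro x hx
      have : x = [] := List.length_eq_zero_iff.1 ((mem_Qf81 0 x).1 hx)
      subst this
      simp [bold]
    rw [h0]
    simp
    exact hd
  | succ m ih =>
    intro d hd
    rw [count_succ81]
    by_cases h : 2 * d < k
    · have e1 : ((Qf m).filter (fun x => bold k d (false :: x) = true)) =
          (Qf m).filter (fun x => bold k (2*d) x = true) := by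
        apply Finset.filter_congr
        intro x _
        simp [bold, h]
      have e2 : ((Qf m).filter (fun x => bold k d (true :: x) = true)).card = 0 := by
        rw [Finset.card_eq_zero, Finset.filter_eq_empty_iff]
        intro x _
        simp [bold, h]
      rw [e1, e2, add_zero]
      obtain ⟨h1, h2⟩ := ih (2*d) h.le
      rw [pow_succ]
      constructor
      · calc _ ≤ 2 ^ m * (2 * d) := h1
          _ = 2 ^ m * 2 * d := by ring
      · calc _ = 2 ^ m * (2 * d) := by ring
          _ ≤ _ := h2
    · have e1 : ((Qf m).filter (fun x => bold k d (false :: x) = true)).card = 2 ^ m := by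
        rw [← card_Qf81 m, Finset.filter_true_of_mem]
        intro x _
        simp [bold, h]
      have e2 : ((Qf m).filter (fun x => bold k d (true :: x) = true)) =
          (Qf m).filter (fun x => bold k (2*d-k) x = true) := by
        apply Finset.filter_congr
        intro x _
        simp [bold, h]
      rw [e1, e2]
      obtain ⟨h1, h2⟩ := ih (2*d-k) (by omega)
      obtain ⟨c, hc⟩ : ∃ c, 2 * d = k + c := ⟨2*d-k, by omega⟩
      have hc' : 2 * d - k = c := by omega
      rw [hc'] at h1 h2 ⊢
      rw [pow_succ]
      have e3 : 2 ^ m * 2 * d = 2 ^ m * k + 2 ^ m * c := by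
        rw [mul_assoc, hc]; ring
      rw [e3]
      constructor
      · rw [mul_add, mul_comm k (2 ^ m)]
        exact Nat.add_le_add_left h1 _
      · calc 2 ^ m * k + 2 ^ m * c ≤ 2 ^ m * k + k * (((Qf m).filter (fun x => bold k c x = true)).card + 1) :=
              Nat.add_le_add_left h2 _
          _ = _ := by ring

end Pool.Agent.Helper81.CS
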