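import Pool.Agent.Helper62.CS.Stmts2

namespace Pool.Agent.Helper81.CS

open Pool.Agent.Helper62.CS

theorem st_HRM : ST_HRM := by
  intro n hn
  have hn0 : (0:ℝ) < n := by exact_mod_cast hn
  have hn1 : (1:ℝ) ≤ n := by exact_mod_cast hn
  have htel : ∑ j ∈ Finset.range n, (Real.log ((n:ℝ)+((j+1:ℕ):ℝ)) - Real.log ((n:ℝ)+((j:ℕ):ℝ)))
      = Real.log 2 := by
    rw [Finset.sum_range_sub (fun j : ℕ => Real.log ((n:ℝ)+((j:ℕ):ℝ)))]
    rw [← Real.log_div (by positivity) (by simp; positivity)]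
    congr 1
    simp only [Nat.cast_zero, add_zero]
    field_simp
    ring
  have hlow : ∀ j ∈ Finset.range n, 1 / ((n:ℝ)+((j+1:ℕ):ℝ)) ≤
      Real.log ((n:ℝ)+((j+1:ℕ):ℝ)) - Real.log ((n:ℝ)+((j:ℕ):ℝ)) := by
    intro j _
    have h1 : (0:ℝ) < (n:ℝ)+((j:ℕ):ℝ) := by positivity
    have h2 : (0:ℝ) < (n:ℝ)+((j+1:ℕ):ℝ) := by positivity
    rw [← Real.log_div h2.ne' h1.ne']
    have h3 := Real.one_sub_inv_le_log_of_pos (div_pos h2 h1)
    refine le_trans (le_of_eq ?_) h3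
    rw [inv_div]
    push_cast
    field_simp
    ring
  have hupp : ∀ j ∈ Finset.range n,
      Real.log ((n:ℝ)+((j+1:ℕ):ℝ)) - Real.log ((n:ℝ)+((j:ℕ):ℝ)) ≤
      1 / ((n:ℝ)+((j:ℕ):ℝ)) - 1 / (16 * (n:ℝ)^2) := by
    intro j hj
    have hj' : (j:ℝ) + 1 ≤ n := by exact_mod_cast Finset.mem_range.1 hj
    set k : ℝ := (n:ℝ)+((j:ℕ):ℝ) with hk
    have h1 : (0:ℝ) < k := by positivity
    have h2 : (n:ℝ)+((j+1:ℕ):ℝ) = k + 1 := by rw [hk]; push_cast; ring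
    rw [h2]
    have e1 : Real.log (k+1) - Real.log k =
        Real.log ((k+1)/(k+1/2)) + Real.log ((k+1/2)/k) := by
      rw [Real.log_div (by positivity) (by positivity), Real.log_div (by positivity) (by positivity)]
      ring
    have e2 := Real.log_le_sub_one_of_pos (show (0:ℝ) < (k+1)/(k+1/2) by positivity)
    have e3 := Real.log_le_sub_one_of_pos (show (0:ℝ) < (k+1/2)/k by positivity)
    have e4 : (k+1)/(k+1/2) - 1 = 1/(2*k+1) := by field_simp; ring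
    have e5 : (k+1/2)/k - 1 = 1/(2*k) := by field_simp; ring
    have e6 : 1/(2*k+1) + 1/(2*k) = 1/k - 1/(2*k*(2*k+1)) := by field_simp; ring
    have e7 : 1 / (16 * (n:ℝ)^2) ≤ 1/(2*k*(2*k+1)) := by
      apply one_div_le_one_div_of_le (by positivity)
      have hk2 : k ≤ 2 * n - 1 := by rw [hk]; linarith
      nlinarith
    rw [e1]
    linarith
  have hs1 : ∑ j ∈ Finset.range n, (1 / ((n:ℝ)+((j:ℕ):ℝ)) - 1 / ((n:ℝ)+((j+1:ℕ):ℝ)))
      = 1 / (2 * (n:ℝ)) := by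
    rw [Finset.sum_range_sub' (fun j : ℕ => 1 / ((n:ℝ)+((j:ℕ):ℝ)))]
    simp only [Nat.cast_zero, add_zero]
    field_simp
    ring
  have hS : ∑ j ∈ Finset.range n, (n : ℝ) / ((n : ℝ) + (j : ℝ)) =
      (n:ℝ) * ∑ j ∈ Finset.range n, 1 / ((n:ℝ)+((j:ℕ):ℝ)) := by
    rw [Finset.mul_sum]
    exact Finset.sum_congr rfl fun j _ => by ring
  rw [Finset.sum_sub_distrib] at hs1
  have hA := Finset.sum_le_sum hlow
  have hB := Finset.sum_le_sum hupp
  rw [htel] at hA hB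
  rw [Finset.sum_sub_distrib, Finset.sum_const, Finset.card_range, nsmul_eq_mul] at hB
  rw [hS]
  constructor
  · have : (n:ℝ) * (1 / (16 * (n:ℝ)^2)) = 1 / (16 * n) := by field_simp
    rw [this] at hB
    have h5 : (n:ℝ) * (Real.log 2 + 1/(16*n)) ≤ (n:ℝ) * ∑ j ∈ Finset.range n, 1 / ((n:ℝ)+((j:ℕ):ℝ)) :=
      mul_le_mul_of_nonneg_left (by linarith) hn0.le
    have h6 : (n:ℝ) * (Real.log 2 + 1/(16*n)) = n * Real.log 2 + 1/16 := by field_simp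
    linarith
  · have h5 : (n:ℝ) * ∑ j ∈ Finset.range n, 1 / ((n:ℝ)+((j:ℕ):ℝ)) ≤ (n:ℝ) * (Real.log 2 + 1/(2*n)) :=
      mul_le_mul_of_nonneg_left (by linarith) hn0.le
    have h6 : (n:ℝ) * (Real.log 2 + 1/(2*n)) = n * Real.log 2 + 1/2 := by field_simp
    linarith

end Pool.Agent.Helper81.CS
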